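import Pool.Agent.Helper31.BC.Stmts

set_option autoImplicit false

/-! (UNS) the formula is not satisfiable. -/

namespace Pool.Agent.Helper31.BC

open Pool.Agent.Helper52.Grid

theorem uns_A1 (k q l i : ℕ) (hi : i < k) :
    ((List.range q).map fun j => (j + q * i, true)) ∈ ccF k q l := by
  unfold ccF pcA
  rw [List.mem_append]
  left
  rw [List.map_append, List.mem_append]
  left
  rw [List.mem_map]
  refine ⟨(((List.range q).map fun j => (j + q * i, true)), 0), ?_, rfl⟩
  rw [List.mem_map]
  exact ⟨i, List.mem_range.2 hi, rfl⟩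

theorem uns_A2 (k q l u v : ℕ) (hu : u < k * q) (hv : v < k * q) (huv : u < v) :
    [(u, false), (v, false), (vb (k * q) l u v, false)] ∈ ccF k q l := by
  unfold ccF pcA
  rw [List.mem_append]
  left
  rw [List.map_append, List.mem_append]
  right
  rw [List.mem_map]
  refine ⟨([(u, false), (v, false), (vb (k * q) l u v, false)], 0), ?_, rfl⟩
  rw [List.mem_flatMap]
  refine ⟨u, List.mem_range.2 hu, ?_⟩
  rw [List.mem_flatMap]
  refine ⟨v, List.mem_range.2 hv, ?_⟩
  rw [if_pos huv]
  simp

theorem uns_B1 (k q l v : ℕ) (hv : v < k * q) :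
    ((List.range l).map fun c => (vr (k * q) l v c, true)) ∈ ccF k q l := by
  unfold ccF pcB
  rw [List.mem_append]
  right
  rw [List.map_append, List.mem_append]
  left
  rw [List.mem_map]
  refine ⟨(((List.range l).map fun c => (vr (k * q) l v c, true)), 0), ?_, rfl⟩
  rw [List.mem_map]
  exact ⟨v, List.mem_range.2 hv, rfl⟩

theorem uns_B2 (k q l u v c : ℕ) (hu : u < k * q) (hv : v < k * q) (huv : u < v) (hc : c < l) :
    [(vr (k * q) l u c, false), (vr (k * q) l v c, false), (vb (k * q) l u v, true)] ∈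
      ccF k q l := by
  unfold ccF pcB
  rw [List.mem_append]
  right
  rw [List.map_append, List.mem_append]
  right
  rw [List.mem_map]
  refine ⟨([(vr (k * q) l u c, false), (vr (k * q) l v c, false), (vb (k * q) l u v, true)],
    if (0 : ℕ) ≠ c then 0 else if (0 : ℕ) ≠ c then 1 else 2), ?_, rfl⟩
  rw [List.mem_flatMap]
  refine ⟨u, List.mem_range.2 hu, ?_⟩
  rw [List.mem_flatMap]
  refine ⟨v, List.mem_range.2 hv, ?_⟩
  rw [List.mem_flatMap]
  refine ⟨c, List.mem_range.2 hc, ?_⟩
  rw [if_pos huv]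
  exact List.mem_singleton.2 rfl

theorem st_UNS : ST_UNS := by
  rintro k q l hlk ⟨a, ha⟩
  -- the chosen vertices
  have h1 : ∀ i : Fin k, ∃ j, j < q ∧ a (j + q * (i : ℕ)) = true := by
    intro i
    obtain ⟨y, hy, hya⟩ := ha _ (uns_A1 k q l i i.2)
    rw [List.mem_map] at hy
    obtain ⟨j, hj, rfl⟩ := hy
    exact ⟨j, List.mem_range.1 hj, hya⟩
  choose j hj hja using h1
  have hlt : ∀ i : Fin k, j i + q * (i : ℕ) < k * q := by
    intro i
    have h2 : (i : ℕ) + 1 ≤ k := i.2
    have h3 : q * ((i : ℕ) + 1) ≤ q * k := Nat.mul_le_mul_left q h2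
    have h4 := hj i
    have h5 : q * ((i : ℕ) + 1) = q * (i : ℕ) + q := by ring
    have h6 : q * k = k * q := Nat.mul_comm q k
    omega
  -- the colours
  have h2 : ∀ i : Fin k, ∃ c, c < l ∧ a (vr (k * q) l (j i + q * (i : ℕ)) c) = true := by
    intro i
    obtain ⟨y, hy, hya⟩ := ha _ (uns_B1 k q l _ (hlt i))
    rw [List.mem_map] at hy
    obtain ⟨c, hc, rfl⟩ := hy
    exact ⟨c, List.mem_range.1 hc, hya⟩
  choose c hc hca using h2
  -- pigeonhole
  obtain ⟨i, i', hne, heq⟩ := Fintype.exists_ne_map_eq_of_card_lt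
    (fun i : Fin k => (⟨c i, hc i⟩ : Fin l)) (by simpa using hlk)
  have heq' : c i = c i' := congrArg Fin.val heq
  -- the conclusion for `i < i'`
  have main : ∀ i i' : Fin k, i < i' → c i = c i' → False := by
    intro i i' hlt' hcc
    have huv : j i + q * (i : ℕ) < j i' + q * (i' : ℕ) := by
      have h3 : (i : ℕ) + 1 ≤ (i' : ℕ) := hlt'
      have h4 : q * ((i : ℕ) + 1) ≤ q * (i' : ℕ) := Nat.mul_le_mul_left q h3
      have h5 : q * ((i : ℕ) + 1) = q * (i : ℕ) + q := by ring
      have h6 := hj i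
      omega
    obtain ⟨y, hy, hya⟩ := ha _ (uns_A2 k q l _ _ (hlt i) (hlt i') huv)
    obtain ⟨z, hz, hza⟩ := ha _ (uns_B2 k q l _ _ (c i) (hlt i) (hlt i') huv (hc i))
    have hb1 : a (vb (k * q) l (j i + q * (i : ℕ)) (j i' + q * (i' : ℕ))) = false := by
      simp only [List.mem_cons, List.not_mem_nil, or_false] at hy
      rcases hy with rfl | rfl | rfl
      · rw [hja i] at hya; exact absurd hya Bool.noConfusion
      · rw [hja i'] at hya; exact absurd hya Bool.noConfusion
      · exact hya
    have hb2 : a (vb (k * q) l (j i + q * (i : ℕ)) (j i' + q * (i' : ℕ))) = true := by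
      simp only [List.mem_cons, List.not_mem_nil, or_false] at hz
      rcases hz with rfl | rfl | rfl
      · rw [hca i] at hza; exact absurd hza Bool.noConfusion
      · rw [hcc, hca i'] at hza; exact absurd hza Bool.noConfusion
      · exact hza
    rw [hb1] at hb2
    exact absurd hb2 (by decide)
  rcases lt_or_gt_of_ne hne with h | h
  · exact main i i' h heq'
  · exact main i' i h heq'.symm

end Pool.Agent.Helper31.BC
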